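import Pool.Agent.V8H64.FF.Frm

/-!
# One more prime
-/

set_option autoImplicit false
set_option linter.unusedSectionVars false
set_option linter.unusedSimpArgs false

namespace Pool.Agent.V8H64.FF

open Finset Matrix
open Pool.Agent.Y164.PS (W om ks V Dat dg dg_add FF_add_left FF_add_right FF_comm ks_add om_ks_comm
  om_add_left om_add_right om_comm om_self om_zero_left om_zero_right TT dg_TT E1_TT E2_TT FF_eq Triv
  W_add_self)

section
variable {ι τ : Type} [Fintype ι] [Fintype τ] (D : Dat τ)
  (A' : Option ι → Option ι → F2) (B' : Option ι → τ → F2) (d' x' : Option ι → F2)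

/-- the embedding -/
def emb (w : V ι τ) : V (Option ι) τ := (fun o => o.elim 0 w.1, w.2)

theorem dg_emb (w : V ι τ) : dg D d' (emb w) = dg D (fun i => d' (some i)) w := by
  unfold dg
  rw [Fintype.sum_option]
  simp [emb]

theorem FF_emb (w w' : V ι τ) : Pool.Agent.Y164.PS.FF D A' B' d' (emb w) (emb w') =
    Pool.Agent.Y164.PS.FF D (fun i j => A' (some i) (some j)) (fun i => B' (some i))
      (fun i => d' (some i)) w w' + ∑ i, A' (some i) none * om (w.1 i) (w'.1 i) := by
  unfold Pool.Agent.Y164.PS.FF
  simp only [Fintype.sum_option, emb, Option.elim_none, Option.elim_some, Prod.fst_zero,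
    om_zero_left, om_zero_right, mul_zero, add_zero, zero_add, sum_const_zero, sum_add_distrib,
    mul_add, zero_mul]
  ring

theorem phi_emb (w w' : V ι τ) : Phi D A' B' d' x' (emb w) (emb w') =
    Phi D (fun i j => A' (some i) (some j)) (fun i => B' (some i)) (fun i => d' (some i))
      (fun i => x' (some i) + A' (some i) none) w w' := by
  unfold Phi
  rw [FF_emb, dg_emb, dg_emb, Fintype.sum_option]
  simp only [emb, Option.elim_none, Option.elim_some, om_zero_left, om_zero_right, mul_zero,
    zero_add, add_mul, sum_add_distrib]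
  ring

theorem om_odd (l : F2 × F2 × F2) (u v : W) : om (ks l u) v + om (ks l u) v + om (ks l u) v =
    om (ks l u) v := by
  rw [F2_add_self, zero_add]

theorem VV_add_self {κ : Type} (w : V κ τ) : w + w = 0 := by
  apply Prod.ext
  · funext i
    exact W_add_self _
  · funext s
    exact F2_add_self _

variable {A'} in
/-- **the kernel of the form with one more prime** -/
theorem triv_iff (hA : ∀ i j, A' i j = A' j i) (hcl : ∀ s, 1 + ∑ i, B' i s + D.g s = 0)
    (hN : ∑ i, d' i + D.N = 1) :
    Triv D A' B' d' ↔ Nd D (fun i j => A' (some i) (some j)) (fun i => B' (some i))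
      (fun i => d' (some i)) (fun i => A' (some i) none) := by
  have hdT : ∀ y : W, dg D d' (TT D y) = y := fun y => by rw [dg_TT, hN, one_smul]
  have hFT : ∀ (y : W) (w' : V (Option ι) τ),
      Pool.Agent.Y164.PS.FF D A' B' d' (TT D y) w' = om (ks D.l y) (dg D d' w') := fun y w' =>
    FF_eq D B' d' _ _ (fun i => E1_TT D B' d' y i) (fun s => E2_TT D B' hcl y s) w'
  -- the form on the corrected vectors
  have key : ∀ w w' : V ι τ, Pool.Agent.Y164.PS.FF D A' B' d'
      (emb w + TT D (dg D (fun i => d' (some i)) w))
      (emb w' + TT D (dg D (fun i => d' (some i)) w')) =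
      Phi D (fun i j => A' (some i) (some j)) (fun i => B' (some i))
      (fun i => d' (some i)) (fun i => A' (some i) none) w w' := by
    intro w w'
    rw [FF_add_left, FF_add_right D B' d' hA, FF_add_right D B' d' hA,
      FF_comm D B' d' hA (emb w) (TT D _), hFT, hFT, hFT, hdT, dg_emb, dg_emb, FF_emb,
      om_ks_comm D.l (dg D (fun i => d' (some i)) w')]
    unfold Phi
    have := om_odd D.l (dg D (fun i => d' (some i)) w) (dg D (fun i => d' (some i)) w')
    linear_combination this
  have hdg : ∀ w : V ι τ, dg D d' (emb w + TT D (dg D (fun i => d' (some i)) w)) = 0 := fun w => by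
    rw [dg_add, hdT, dg_emb, W_add_self]
  -- every vector of degree zero is corrected
  have hsurj : ∀ v : V (Option ι) τ, dg D d' v = 0 →
      ∃ w : V ι τ, v = emb w + TT D (dg D (fun i => d' (some i)) w) := by
    intro v hv
    obtain ⟨w, hw⟩ : ∃ w : V ι τ, v + TT D (v.1 none) = emb w := by
      refine ⟨(fun i => (v + TT D (v.1 none)).1 (some i), (v + TT D (v.1 none)).2), ?_⟩
      refine Prod.ext ?_ rfl
      funext o
      cases o with
      | none => exact W_add_self _
      | some i => rfl
    refine ⟨w, ?_⟩
    have h1 : dg D (fun i => d' (some i)) w = v.1 none := by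
      rw [← dg_emb, ← hw, dg_add, hdT, hv, zero_add]
    rw [h1, ← hw, add_assoc, VV_add_self, add_zero]
  have hinj : ∀ w : V ι τ, emb w + TT D (dg D (fun i => d' (some i)) w) = 0 → w = 0 := by
    intro w hw
    have h1 : dg D (fun i => d' (some i)) w = 0 := by
      have := congrFun (congrArg Prod.fst hw) none
      have h2 : (emb w + TT D (dg D (fun i => d' (some i)) w)).1 none =
          dg D (fun i => d' (some i)) w := zero_add _
      rw [h2] at this
      exact this
    have h2 : TT D (dg D (fun i => d' (some i)) w) = (0 : V (Option ι) τ) := by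
      rw [h1]
      refine Prod.ext rfl ?_
      funext s
      exact om_zero_left _
    rw [h2, add_zero] at hw
    refine Prod.ext ?_ ?_
    · funext i
      exact congrFun (congrArg Prod.fst hw) (some i)
    · show (emb w).2 = 0
      rw [hw]
      rfl
  constructor
  · intro hT w hw
    apply hinj
    apply hT _ (hdg w)
    intro v' hv'
    obtain ⟨w', rfl⟩ := hsurj v' hv'
    rw [key]
    exact hw w'
  · intro hT v hv hv0
    obtain ⟨w, rfl⟩ := hsurj v hv
    have h1 : w = 0 := by
      apply hT
      intro w'
      rw [← key]
      exact hv0 _ (hdg w')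
    subst h1
    have h2 : dg D (fun i => d' (some i)) (0 : V ι τ) = 0 := by
      simp [dg]
    rw [h2]
    refine Prod.ext ?_ ?_
    · funext o
      cases o with
      | none => exact add_zero _
      | some i => exact add_zero _
    · funext s
      show (0 : F2) + om 0 (D.t s) = 0
      rw [om_zero_left, add_zero]

end

end Pool.Agent.V8H64.FF
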