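import Mathlib

/-!
# Determinants over the field with two elements: adding a hyperbolic block
-/

set_option autoImplicit false

namespace Pool.Agent.V8H64.FF

open Matrix

abbrev F2 := ZMod 2

theorem F2_add_self (x : F2) : x + x = 0 := by revert x; decide

/-- the hyperbolic block -/
def JJ : Matrix Bool Bool F2 := Matrix.of fun i j => if i = j then 0 else 1

theorem JJ_det : JJ.det = 1 := by
  decide

section
variable {n : Type} [Fintype n] [DecidableEq n]

theorem update_twice (M : Matrix n n F2) (hM : Mᵀ = M) {r s : n} (hrs : r ≠ s) :
    (updateRow (updateRow M r (M r + Pi.single s 1)) s (M s + Pi.single r 1)).det =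
      M.det + (updateRow (updateRow M r (Pi.single s 1)) s (Pi.single r 1)).det := by
  have h1 : (updateRow (updateRow M r (M r + Pi.single s 1)) s (M s)).det =
      M.det + M.adjugate s r := by
    have e : updateRow (updateRow M r (M r + Pi.single s 1)) s (M s) =
        updateRow M r (M r + Pi.single s 1) := by
      ext i j
      by_cases hi : i = s
      · rw [hi, updateRow_self, updateRow_ne hrs.symm]
      · rw [updateRow_ne hi]
    rw [e, det_updateRow_add, updateRow_eq_self, adjugate_apply]
  have hcomm : ∀ u v : n → F2, updateRow (updateRow M r u) s v = updateRow (updateRow M s v) r u := by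
    intro u v
    ext i j
    by_cases hi : i = s
    · rw [hi, updateRow_self, updateRow_ne hrs.symm, updateRow_self]
    · rw [updateRow_ne hi]
      by_cases hi' : i = r
      · rw [hi', updateRow_self, updateRow_self]
      · rw [updateRow_ne hi', updateRow_ne hi', updateRow_ne hi]
  have h2 : (updateRow (updateRow M r (M r + Pi.single s 1)) s (Pi.single r 1)).det =
      M.adjugate r s + (updateRow (updateRow M r (Pi.single s 1)) s (Pi.single r 1)).det := by
    rw [hcomm, det_updateRow_add]
    congr 1
    · rw [adjugate_apply]
      congr 1
      have e : M r = (updateRow M s (Pi.single r 1)) r := by rw [updateRow_ne hrs]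
      rw [e, updateRow_eq_self]
    · rw [hcomm]
  have h3 : M.adjugate r s = M.adjugate s r := by
    have := congrFun (congrFun (adjugate_transpose M) r) s
    rw [hM, transpose_apply] at this
    exact this.symm
  rw [det_updateRow_add, h1, h2, h3]
  linear_combination F2_add_self (M.adjugate s r)

/-- **the step** -/
theorem det_step (A : Matrix n n F2) (B : Matrix n Bool F2) (S : Matrix Bool Bool F2) (hA : Aᵀ = A)
    (hS : Sᵀ = S) : (fromBlocks A B Bᵀ S).det + (fromBlocks A B Bᵀ (S + JJ)).det = A.det := by
  set M := fromBlocks A B Bᵀ S with hMd
  have hM : Mᵀ = M := by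
    rw [hMd, fromBlocks_transpose, hA, hS, transpose_transpose]
  have hne : (Sum.inr false : n ⊕ Bool) ≠ Sum.inr true := by simp
  have e1 : fromBlocks A B Bᵀ (S + JJ) =
      updateRow (updateRow M (Sum.inr false) (M (Sum.inr false) + Pi.single (Sum.inr true) 1))
        (Sum.inr true) (M (Sum.inr true) + Pi.single (Sum.inr false) 1) := by
    ext i j
    rcases i with i | (_ | _)
    · rw [updateRow_ne (by simp), updateRow_ne (by simp)]
      rcases j with j | j <;> rfl
    · rw [updateRow_ne hne, updateRow_self]
      rcases j with j | (_ | _)
      · simp [hMd]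
      · simp [hMd, JJ]
      · simp [hMd, JJ]
    · rw [updateRow_self]
      rcases j with j | (_ | _)
      · simp [hMd]
      · simp [hMd, JJ]
      · simp [hMd, JJ]
  have e2 : updateRow (updateRow M (Sum.inr false) (Pi.single (Sum.inr true) 1)) (Sum.inr true)
      (Pi.single (Sum.inr false) 1) = fromBlocks A B 0 JJ := by
    ext i j
    rcases i with i | (_ | _)
    · rw [updateRow_ne (by simp), updateRow_ne (by simp)]
      rcases j with j | j <;> rfl
    · rw [updateRow_ne hne, updateRow_self]
      rcases j with j | (_ | _)
      · simp
      · simp [JJ]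
      · simp [JJ]
    · rw [updateRow_self]
      rcases j with j | (_ | _)
      · simp
      · simp [JJ]
      · simp [JJ]
  rw [e1, update_twice M hM hne, e2, det_fromBlocks_zero₂₁, JJ_det]
  linear_combination F2_add_self M.det

end

end Pool.Agent.V8H64.FF
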