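import Pool.Agent.Y164.PS.Form
import Pool.Agent.V8H64.FF.Mat

/-!
# The form of the twists by one more prime
-/

set_option autoImplicit false
set_option linter.unusedSectionVars false

namespace Pool.Agent.V8H64.FF

open Finset Matrix
open Pool.Agent.Y164.PS (W om ks V Dat dg dg_add FF_add_left FF_add_right FF_comm ks_add om_ks_comm
  om_add_left om_add_right om_comm om_self om_zero_left om_zero_right TT dg_TT E1_TT E2_TT FF_eq Triv
  W_add_self)

theorem F2_cases (x : F2) : x = 0 ∨ x = 1 := by revert x; decide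

theorem om_two (u v : W) : om u v + om u v = 0 := F2_add_self _

section
variable {ι τ : Type} [Fintype ι] [Fintype τ] (D : Dat τ) (A : ι → ι → F2) (B : ι → τ → F2)
  (d : ι → F2) (x : ι → F2)

/-- the form -/
def Phi (w w' : V ι τ) : F2 :=
  Pool.Agent.Y164.PS.FF D A B d w w' + ∑ i, x i * om (w.1 i) (w'.1 i) +
    om (ks D.l (dg D d w)) (dg D d w')

variable {A}

theorem phi_comm (hA : ∀ i j, A i j = A j i) (w w' : V ι τ) :
    Phi D A B d x w w' = Phi D A B d x w' w := by
  unfold Phi
  rw [FF_comm D B d hA, om_ks_comm]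
  congr 2
  exact sum_congr rfl fun i _ => by rw [om_comm]

theorem phi_add_left (u w w' : V ι τ) :
    Phi D A B d x (u + w) w' = Phi D A B d x u w' + Phi D A B d x w w' := by
  unfold Phi
  rw [FF_add_left, dg_add, ks_add, om_add_left]
  have e : ∑ i, x i * om ((u + w).1 i) (w'.1 i) =
      ∑ i, x i * om (u.1 i) (w'.1 i) + ∑ i, x i * om (w.1 i) (w'.1 i) := by
    rw [← sum_add_distrib]
    refine sum_congr rfl fun i _ => ?_
    rw [Prod.fst_add, Pi.add_apply, om_add_left, mul_add]
  rw [e]
  ring

theorem phi_zero_left (w' : V ι τ) : Phi D A B d x 0 w' = 0 := by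
  have h := phi_add_left D (A := A) B d x 0 0 w'
  rw [add_zero, F2_add_self] at h
  exact h

theorem phi_smul_left (c : F2) (w w' : V ι τ) :
    Phi D A B d x (c • w) w' = c * Phi D A B d x w w' := by
  rcases F2_cases c with rfl | rfl
  · rw [zero_smul, zero_mul, phi_zero_left]
  · rw [one_smul, one_mul]

theorem phi_sum_left {α : Type*} (s : Finset α) (f : α → V ι τ) (w' : V ι τ) :
    Phi D A B d x (∑ a ∈ s, f a) w' = ∑ a ∈ s, Phi D A B d x (f a) w' := by
  classical
  induction s using Finset.induction_on with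
  | empty => rw [sum_empty, sum_empty, phi_zero_left]
  | insert a s ha ih => rw [sum_insert ha, sum_insert ha, phi_add_left, ih]

variable (A) in
/-- the form has a trivial kernel -/
def Nd : Prop := ∀ w : V ι τ, (∀ w' : V ι τ, Phi D A B d x w w' = 0) → w = 0

variable [DecidableEq ι] [DecidableEq τ]

/-- the basis -/
def bs : (ι × Bool) ⊕ τ → V ι τ
  | Sum.inl (i, b) => (Pi.single i (if b then (0, 1) else (1, 0)), 0)
  | Sum.inr s => (0, Pi.single s 1)

/-- the coordinates -/
def cf (w : V ι τ) : (ι × Bool) ⊕ τ → F2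
  | Sum.inl (i, b) => if b then (w.1 i).2 else (w.1 i).1
  | Sum.inr s => w.2 s

theorem expand (w : V ι τ) : w = ∑ p, cf w p • bs (τ := τ) p := by
  rw [Fintype.sum_sum_type, Fintype.sum_prod_type]
  refine Prod.ext ?_ ?_
  · rw [Prod.fst_add, Prod.fst_sum, Prod.fst_sum]
    funext i
    rw [Pi.add_apply, Finset.sum_apply, Finset.sum_apply]
    have e1 : ∑ s : τ, (cf w (Sum.inr s) • bs (ι := ι) (Sum.inr s)).1 i = 0 :=
      sum_eq_zero fun s _ => by simp [bs]
    rw [e1, add_zero, Finset.sum_eq_single i]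
    · rw [Fintype.sum_bool]
      simp [bs, cf, Prod.ext_iff]
    · intro j _ hj
      rw [Fintype.sum_bool]
      simp [bs, Pi.single_eq_of_ne hj.symm]
    · intro h
      exact absurd (mem_univ i) h
  · rw [Prod.snd_add, Prod.snd_sum, Prod.snd_sum]
    funext s
    rw [Pi.add_apply, Finset.sum_apply, Finset.sum_apply]
    have e1 : ∑ i : ι, (∑ b : Bool, cf w (Sum.inl (i, b)) • bs (τ := τ) (Sum.inl (i, b))).2 s = 0 :=
      sum_eq_zero fun i _ => by rw [Fintype.sum_bool]; simp [bs]
    rw [e1, zero_add, Finset.sum_eq_single s]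
    · simp [bs, cf]
    · intro j _ hj
      simp [bs, Pi.single_eq_of_ne hj.symm]
    · intro h
      exact absurd (mem_univ s) h

theorem fst_sum (v : (ι × Bool) ⊕ τ → F2) (i : ι) :
    (∑ p, v p • bs (τ := τ) p).1 i = (v (Sum.inl (i, false)), v (Sum.inl (i, true))) := by
  rw [Fintype.sum_sum_type, Fintype.sum_prod_type, Prod.fst_add, Prod.fst_sum, Prod.fst_sum,
    Pi.add_apply, Finset.sum_apply, Finset.sum_apply]
  have e1 : ∑ s : τ, (v (Sum.inr s) • bs (ι := ι) (Sum.inr s)).1 i = 0 :=
    sum_eq_zero fun s _ => by simp [bs]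
  rw [e1, add_zero, Finset.sum_eq_single i]
  · rw [Fintype.sum_bool]
    simp [bs]
  · intro j _ hj
    rw [Fintype.sum_bool]
    simp [bs, Pi.single_eq_of_ne hj.symm]
  · intro h
    exact absurd (mem_univ i) h

theorem snd_sum (v : (ι × Bool) ⊕ τ → F2) (s : τ) :
    (∑ p, v p • bs (τ := τ) p).2 s = v (Sum.inr s) := by
  rw [Fintype.sum_sum_type, Fintype.sum_prod_type, Prod.snd_add, Prod.snd_sum, Prod.snd_sum,
    Pi.add_apply, Finset.sum_apply, Finset.sum_apply]
  have e1 : ∑ i : ι, (∑ b : Bool, v (Sum.inl (i, b)) • bs (τ := τ) (Sum.inl (i, b))).2 s = 0 :=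
    sum_eq_zero fun i _ => by rw [Fintype.sum_bool]; simp [bs]
  rw [e1, zero_add, Finset.sum_eq_single s]
  · simp [bs]
  · intro j _ hj
    simp [bs, Pi.single_eq_of_ne hj.symm]
  · intro h
    exact absurd (mem_univ s) h

theorem cf_sum (v : (ι × Bool) ⊕ τ → F2) : cf (∑ p, v p • bs (τ := τ) p) = v := by
  have h1 := fst_sum v
  have h2 := snd_sum v
  set S := ∑ p, v p • bs (τ := τ) p with hS
  funext p
  rcases p with ⟨i, b⟩ | s
  · cases b
    · show (if false = true then (S.1 i).2 else (S.1 i).1) = _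
      rw [h1]
      rfl
    · show (if true = true then (S.1 i).2 else (S.1 i).1) = _
      rw [h1]
      rfl
  · show S.2 s = _
    rw [h2]

/-- the Gram matrix -/
def Gm (D : Dat τ) (A : ι → ι → F2) (B : ι → τ → F2) (d x : ι → F2) :
    Matrix ((ι × Bool) ⊕ τ) ((ι × Bool) ⊕ τ) F2 :=
  Matrix.of fun p q => Phi D A B d x (bs p) (bs q)

theorem gm_symm (hA : ∀ i j, A i j = A j i) : (Gm D A B d x)ᵀ = Gm D A B d x := by
  ext p q
  exact phi_comm D B d x hA _ _

theorem vecMul_gm (hA : ∀ i j, A i j = A j i) (v : (ι × Bool) ⊕ τ → F2) (w' : V ι τ) :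
    Phi D A B d x (∑ p, v p • bs p) w' = ∑ q, (v ᵥ* Gm D A B d x) q * cf w' q := by
  conv_lhs => rw [expand w']
  rw [phi_comm D B d x hA, phi_sum_left]
  refine sum_congr rfl fun q _ => ?_
  rw [phi_smul_left, phi_comm D B d x hA, phi_sum_left, mul_comm]
  congr 1
  show _ = ∑ p, v p * Gm D A B d x p q
  refine sum_congr rfl fun p _ => ?_
  rw [phi_smul_left]
  rfl

theorem nd_iff (hA : ∀ i j, A i j = A j i) : Nd D A B d x ↔ (Gm D A B d x).det ≠ 0 := by
  constructor
  · intro h h0
    obtain ⟨v, hv, hv0⟩ := exists_vecMul_eq_zero_iff.2 h0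
    apply hv
    have h1 : ∑ p, v p • bs (τ := τ) p = 0 := by
      apply h
      intro w'
      rw [vecMul_gm D B d x hA, hv0]
      simp
    rw [← cf_sum v, h1]
    funext p
    rcases p with ⟨i, b⟩ | s
    · cases b <;> rfl
    · rfl
  · intro h w hw
    by_contra hne
    apply h
    refine exists_vecMul_eq_zero_iff.1 ⟨cf w, ?_, ?_⟩
    · intro h0
      apply hne
      rw [expand w, h0]
      simp
    · funext q
      have h1 := hw (bs q)
      rw [expand w, vecMul_gm D B d x hA, Finset.sum_eq_single q] at h1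
      · have h2 : cf (bs (ι := ι) q) q = (1 : F2) := by
          rcases q with ⟨i, b⟩ | s
          · cases b <;> simp [cf, bs]
          · simp [cf, bs]
        rw [h2, mul_one] at h1
        exact h1
      · intro p _ hp
        have h2 : cf (bs (ι := ι) q) p = (0 : F2) := by
          rcases q with ⟨i, b⟩ | s <;> rcases p with ⟨j, c⟩ | t
          · by_cases hij : j = i
            · subst hij
              have hbc : c ≠ b := fun h => hp (by rw [h])
              cases b <;> cases c <;> simp_all [cf, bs]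
            · cases b <;> cases c <;> simp [cf, bs, Pi.single_eq_of_ne hij]
          · simp [cf, bs]
          · cases c <;> simp [cf, bs]
          · have hst : t ≠ s := fun h => hp (by rw [h])
            simp [cf, bs, Pi.single_eq_of_ne hst]
        rw [h2, mul_zero]
      · intro h
        exact absurd (mem_univ q) h

end

end Pool.Agent.V8H64.FF
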